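import Pool.Agent.Helper36_XQ.Stmt4

/-!
Squad XQ (MP_5b0138_an), part A4, module A4_NR4 (helper2): nearly minimal triangles.
-/

set_option autoImplicit false

namespace Pool.Agent.XQ.K4.H2

open Complex Pool.Agent.H62T

theorem ip_def (z w : ℂ) : ip z w = z.re * w.re + z.im * w.im := rfl

theorem ip_le_norm (e w : ℂ) (he : e.re ^ 2 + e.im ^ 2 = 1) : ip e w ≤ ‖w‖ := by
  have h1 : ‖w‖ ^ 2 = w.re ^ 2 + w.im ^ 2 := by
    rw [Complex.sq_norm, Complex.normSq_apply]; ring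
  have h2 : (ip e w) ^ 2 ≤ ‖w‖ ^ 2 := by
    rw [h1, ip_def]
    nlinarith only [he, sq_nonneg (e.re * w.im - e.im * w.re)]
  exact (abs_le_of_sq_le_sq' h2 (norm_nonneg w)).2

theorem small (A r : ℝ) (hr : 0 < r) : ∃ δ0 : ℝ, 0 < δ0 ∧ ∀ δ : ℝ, 0 < δ → δ ≤ δ0 → A * δ < r := by
  refine ⟨r / (2 * (|A| + 1)), by positivity, fun δ h1 h2 => ?_⟩
  have h3 : 0 < |A| + 1 := by positivity
  have h4 : A * δ ≤ (|A| + 1) * δ := by
    apply mul_le_mul_of_nonneg_right _ h1.le
    linarith [le_abs_self A]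
  have h5 : (|A| + 1) * δ ≤ (|A| + 1) * (r / (2 * (|A| + 1))) := by
    exact mul_le_mul_of_nonneg_left h2 h3.le
  have h6 : (|A| + 1) * (r / (2 * (|A| + 1))) = r / 2 := by field_simp
  linarith

/-- coefficients of the certificate at a base vertex -/
theorem coef (α θ : ℝ) (a2 : α < Real.pi) (c1 : 0 < θ)
    (c2 : θ < 2 * α - Real.pi) :
    ∃ b c : ℝ, 0 < b ∧ 0 < c ∧ b * Real.sin α = 1 + Real.cos θ ∧
      b * Real.cos α + c = - Real.sin θ := by
  have hs : 0 < Real.sin α := Real.sin_pos_of_pos_of_lt_pi (by linarith [Real.pi_pos]) a2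
  have hth : θ < Real.pi := by linarith
  have hc : 0 < Real.cos (θ / 2) :=
    Real.cos_pos_of_mem_Ioo ⟨by linarith [Real.pi_pos], by linarith⟩
  have hc' : Real.cos (α - θ / 2) < 0 :=
    Real.cos_neg_of_pi_div_two_lt_of_lt (by linarith) (by linarith [Real.pi_pos])
  have h1 : 0 < 1 + Real.cos θ := by
    have : Real.cos θ = 2 * Real.cos (θ / 2) ^ 2 - 1 := by
      rw [← Real.cos_two_mul]; congr 1; ring
    rw [this]; nlinarith only [hc]
  have h2 : Real.cos (α - θ) + Real.cos α = 2 * Real.cos (α - θ / 2) * Real.cos (θ / 2) := by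
    have e1 : α - θ = (α - θ / 2) - θ / 2 := by ring
    have e2 : Real.cos α = Real.cos ((α - θ / 2) + θ / 2) := by congr 1; ring
    rw [e1, e2, Real.cos_sub (α - θ / 2), Real.cos_add (α - θ / 2)]; ring
  refine ⟨(1 + Real.cos θ) / Real.sin α, -(Real.cos (α - θ) + Real.cos α) / Real.sin α,
    by positivity, ?_, by field_simp, ?_⟩
  · apply div_pos _ hs
    rw [h2]; nlinarith only [hc, hc']
  · rw [Real.cos_sub]
    field_simp
    ring

theorem near0 (s c K δ x y T : ℝ) (hs : 0 < s) (hc : c ^ 2 ≤ 1) (hT : T = -(s * x) + c * y)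
    (h1 : |T| ≤ K * δ) (h2 : |y| ≤ K * δ) : |x| + |y| ≤ (2 * K / s + K) * δ := by
  have hc1 : |c| ≤ 1 := by
    rw [abs_le]
    constructor <;> nlinarith only [hc]
  have h3 : |s * x| ≤ 2 * K * δ := by
    have e : s * x = c * y - T := by linarith
    rw [e]
    calc |c * y - T| ≤ |c * y| + |T| := abs_sub _ _
      _ ≤ 1 * |y| + |T| := by rw [abs_mul]; gcongr
      _ ≤ 2 * K * δ := by linarith
  have h4 : |x| ≤ 2 * K / s * δ := by
    rw [abs_mul, abs_of_pos hs] at h3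
    have : 2 * K / s * δ = (2 * K * δ) / s := by ring
    rw [this, le_div_iff₀ hs]; linarith
  linarith

theorem nr4 : Nr4Statement := by
  intro α α' θ θ' d a ρ H hρ
  obtain ⟨p, hp, hap⟩ := H.ea
  obtain ⟨p', hp', hap'⟩ := H.ea'
  obtain ⟨c0, c1, hc0, hc1, e01, e02⟩ := coef α θ H.a2 H.c1 H.c2
  obtain ⟨c2, c3, hc2, hc3, e21, e22⟩ := coef α' θ' H.b2 H.c3 H.c4
  have hsα : 0 < Real.sin α :=
    Real.sin_pos_of_pos_of_lt_pi (by linarith [Real.pi_pos, H.a1]) H.a2
  have hsα' : 0 < Real.sin α' :=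
    Real.sin_pos_of_pos_of_lt_pi (by linarith [Real.pi_pos, H.b1]) H.b2
  have htri := H.tri
  have hst : 0 < Real.sin (θ + θ') :=
    Real.sin_pos_of_pos_of_lt_pi (by linarith [H.c1, H.c3]) H.tri
  set c4 : ℝ := 2 * Real.sin ((θ + θ') / 2) with hc4d
  have hc4 : 0 < c4 := by
    have := Real.sin_pos_of_pos_of_lt_pi (x := (θ + θ') / 2) (by linarith [H.c1, H.c3])
      (by linarith [H.c1, H.c3])
    positivity
  have e41 : c4 * Real.sin ((θ - θ') / 2) = -(Real.cos θ - Real.cos θ') := by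
    have e1 : Real.cos θ = Real.cos ((θ + θ') / 2 + (θ - θ') / 2) := by congr 1; ring
    have e2 : Real.cos θ' = Real.cos ((θ + θ') / 2 - (θ - θ') / 2) := by congr 1; ring
    rw [e1, e2, Real.cos_add, Real.cos_sub]; ring
  have e42 : c4 * Real.cos ((θ - θ') / 2) = Real.sin θ + Real.sin θ' := by
    have e1 : Real.sin θ = Real.sin ((θ + θ') / 2 + (θ - θ') / 2) := by congr 1; ring
    have e2 : Real.sin θ' = Real.sin ((θ + θ') / 2 - (θ - θ') / 2) := by congr 1; ring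
    rw [e1, e2, Real.sin_add, Real.sin_sub]; ring
  clear_value c4
  -- coordinates of `a`
  have ar : a.re = p * Real.cos θ := by
    rw [hap]; simp [Complex.exp_ofReal_mul_I_re]
  have ai : a.im = p * Real.sin θ := by
    rw [hap]; simp [Complex.exp_ofReal_mul_I_im]
  have hneg : exp (-((θ' : ℂ) * I)) = exp (((-θ' : ℝ) : ℂ) * I) := by
    congr 1; push_cast; ring
  have ar' : a.re = d - p' * Real.cos θ' := by
    rw [hap', hneg, sub_re, re_ofReal_mul, Complex.exp_ofReal_mul_I_re, Real.cos_neg, ofReal_re]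
  have ai' : a.im = p' * Real.sin θ' := by
    rw [hap', hneg, sub_im, im_ofReal_mul, Complex.exp_ofReal_mul_I_im, Real.sin_neg, ofReal_im]
    ring
  have na : ‖a‖ = p := by
    rw [hap, norm_mul, Complex.norm_exp_ofReal_mul_I, mul_one, Complex.norm_real,
      Real.norm_of_nonneg hp.le]
  have nad : ‖a - d‖ = p' := by
    have : a - d = -((p' : ℂ) * exp (((-θ' : ℝ) : ℂ) * I)) := by rw [hap', hneg]; ring
    rw [this, norm_neg, norm_mul, Complex.norm_exp_ofReal_mul_I, mul_one, Complex.norm_real,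
      Real.norm_of_nonneg hp'.le]
  -- the normals
  have u0r : (u4 α α' θ θ' 0).re = - Real.sin α := by
    simp [u4, Complex.exp_ofReal_mul_I_im]
  have u0i : (u4 α α' θ θ' 0).im = Real.cos α := by
    simp [u4, Complex.exp_ofReal_mul_I_re]
  have u2r : (u4 α α' θ θ' 2).re = Real.sin α' := by
    have : u4 α α' θ θ' 2 = exp ((Real.pi / 2 - α' : ℝ) * I) := rfl
    rw [this, Complex.exp_ofReal_mul_I_re, Real.cos_pi_div_two_sub]
  have u2i : (u4 α α' θ θ' 2).im = Real.cos α' := by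
    have : u4 α α' θ θ' 2 = exp ((Real.pi / 2 - α' : ℝ) * I) := rfl
    rw [this, Complex.exp_ofReal_mul_I_im, Real.sin_pi_div_two_sub]
  have u3r : (u4 α α' θ θ' 3).re = - Real.sin ((θ - θ') / 2) := by
    have : u4 α α' θ θ' 3 = exp ((Real.pi / 2 + (θ - θ') / 2 : ℝ) * I) := rfl
    rw [this, Complex.exp_ofReal_mul_I_re, add_comm, Real.cos_add_pi_div_two]
  have u3i : (u4 α α' θ θ' 3).im = Real.cos ((θ - θ') / 2) := by
    have : u4 α α' θ θ' 3 = exp ((Real.pi / 2 + (θ - θ') / 2 : ℝ) * I) := rfl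
    rw [this, Complex.exp_ofReal_mul_I_im, add_comm, Real.sin_add_pi_div_two]
  have hh0 : h4 α' θ θ' d a 0 = 0 := rfl
  have hh2 : h4 α' θ θ' d a 2 = Real.sin α' * d := by
    have : h4 α' θ θ' d a 2 = ip (u4 α α' θ θ' 2) d := rfl
    rw [this, ip_def, u2r, u2i]; simp
  have hh3 : h4 α' θ θ' d a 3 = - Real.sin ((θ - θ') / 2) * a.re
      + Real.cos ((θ - θ') / 2) * a.im := by
    have : h4 α' θ θ' d a 3 = ip (u4 α α' θ θ' 3) a := rfl
    rw [this, ip_def, u3r, u3i]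
  -- constants
  set K : ℝ := 1 + c0 + c1 + c2 + c3 + c4 with hK
  have hK0 : 0 < K := by positivity
  set K0 : ℝ := 1 + K / c0 + K / c1 with hK0d
  set K2 : ℝ := 1 + K / c2 + K / c3 with hK2d
  set A0 : ℝ := 2 * K0 / Real.sin α + K0 with hA0d
  set A2 : ℝ := 2 * K2 / Real.sin α' + K2 with hA2d
  have hA0 : 0 < A0 := by positivity
  have hA2 : 0 < A2 := by positivity
  set B : ℝ := L4 d a + 1 + A0 + A2 + d with hBd
  have hB : 0 < B := by
    have : 0 < L4 d a := by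
      unfold L4; rw [na, nad]; linarith only [H.dpos, hp, hp']
    have := H.dpos
    positivity
  set Q : ℝ := 2 * (2 * (2 * ((K + 2 * A0) * B + (K + 2 * A2) * B))) / Real.sin (θ + θ') ^ 2
    with hQd
  clear_value K K0 K2 A0 A2 B Q
  obtain ⟨δ1, hδ1, hs1⟩ := small A0 ρ hρ
  obtain ⟨δ2, hδ2, hs2⟩ := small A2 ρ hρ
  obtain ⟨δ3, hδ3, hs3⟩ := small Q (ρ ^ 2) (by positivity)
  refine ⟨min 1 (min δ1 (min δ2 δ3)), by positivity, ?_⟩
  generalize hδd : min 1 (min δ1 (min δ2 δ3)) = δ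
  have hδ : 0 < δ := by rw [← hδd]; positivity
  have hd1 : δ ≤ 1 := by rw [← hδd]; exact min_le_left _ _
  have hd2 : δ ≤ δ1 := by rw [← hδd]; exact (min_le_right _ _).trans (min_le_left _ _)
  have hd3 : δ ≤ δ2 := by
    rw [← hδd]; exact (min_le_right _ _).trans ((min_le_right _ _).trans (min_le_left _ _))
  have hd4 : δ ≤ δ3 := by
    rw [← hδd]; exact (min_le_right _ _).trans ((min_le_right _ _).trans (min_le_right _ _))
  intro p0 p2 p3 hF h0 h0' h2 h2' h3
  rw [hh0, ip_def, u0r, u0i] at h0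
  rw [hh2, ip_def, u2r, u2i] at h2
  rw [hh3, ip_def, u3r, u3i] at h3
  have hL : L4 d a = d + p + p' := by unfold L4; rw [na, nad]
  -- slacks
  set T1 : ℝ := -(Real.sin α * p0.re) + Real.cos α * p0.im with hT1
  set T3 : ℝ := Real.sin α' * (p2.re - d) + Real.cos α' * p2.im with hT3
  set T5 : ℝ := - Real.sin ((θ - θ') / 2) * (p3.re - a.re)
    + Real.cos ((θ - θ') / 2) * (p3.im - a.im) with hT5
  have t1 : -δ ≤ T1 := by rw [hT1]; linarith only [h0]
  have t3 : -δ ≤ T3 := by rw [hT3]; linarith only [h2]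
  have t5 : -δ ≤ T5 := by rw [hT5]; linarith only [h3]
  clear_value T1 T3 T5
  -- edges
  set f : ℂ := ⟨Real.cos θ, Real.sin θ⟩ with hf
  set g : ℂ := ⟨-Real.cos θ', Real.sin θ'⟩ with hg
  have nf : f.re ^ 2 + f.im ^ 2 = 1 := by
    simp only [hf]; linarith only [Real.sin_sq_add_cos_sq θ]
  have ng : g.re ^ 2 + g.im ^ 2 = 1 := by
    simp only [hg]; linarith only [Real.sin_sq_add_cos_sq θ']
  clear_value f g
  have s1 : p2.re - p0.re ≤ ‖p0 - p2‖ := by
    have h := abs_re_le_norm (p0 - p2)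
    have h' := neg_abs_le (p0 - p2).re
    simp only [sub_re] at h h'
    linarith only [h, h']
  have s2 : ip g (p3 - p2) ≤ ‖p2 - p3‖ := by
    rw [norm_sub_rev]; exact ip_le_norm g _ ng
  have s3 : ip f (p3 - p0) ≤ ‖p3 - p0‖ := ip_le_norm f _ nf
  have key : (p2.re - p0.re) + ip g (p3 - p2) + ip f (p3 - p0)
      = L4 d a + c0 * T1 + c1 * p0.im + c2 * T3 + c3 * p2.im + c4 * T5 := by
    have k1 : c4 * T5 = (Real.cos θ - Real.cos θ') * (p3.re - a.re)
        + (Real.sin θ + Real.sin θ') * (p3.im - a.im) := by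
      rw [hT5, ← e42]
      have : Real.cos θ - Real.cos θ' = -(c4 * Real.sin ((θ - θ') / 2)) := by rw [e41]; ring
      rw [this]; ring
    have k2 : c0 * T1 + c1 * p0.im = -(1 + Real.cos θ) * p0.re - Real.sin θ * p0.im := by
      rw [hT1, ← e01]
      have : Real.sin θ = -(c0 * Real.cos α + c1) := by rw [e02]; ring
      rw [this]; ring
    have k3 : c2 * T3 + c3 * p2.im = (1 + Real.cos θ') * (p2.re - d) - Real.sin θ' * p2.im := by
      rw [hT3, ← e21]
      have : Real.sin θ' = -(c2 * Real.cos α' + c3) := by rw [e22]; ring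
      rw [this]; ring
    have k4 : Real.cos θ * a.re + Real.sin θ * a.im = p := by
      rw [ar, ai]
      have := Real.sin_sq_add_cos_sq θ
      calc Real.cos θ * (p * Real.cos θ) + Real.sin θ * (p * Real.sin θ)
          = p * (Real.sin θ ^ 2 + Real.cos θ ^ 2) := by ring
        _ = p := by rw [this, mul_one]
    have k5 : Real.cos θ' * a.re - Real.sin θ' * a.im = d * Real.cos θ' - p' := by
      rw [ar', ai']
      have := Real.sin_sq_add_cos_sq θ'
      calc Real.cos θ' * (d - p' * Real.cos θ') - Real.sin θ' * (p' * Real.sin θ')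
          = d * Real.cos θ' - p' * (Real.sin θ' ^ 2 + Real.cos θ' ^ 2) := by ring
        _ = d * Real.cos θ' - p' := by rw [this, mul_one]
    have k6 : ip g (p3 - p2) = -Real.cos θ' * (p3.re - p2.re)
        + Real.sin θ' * (p3.im - p2.im) := by
      rw [ip_def]; simp only [hg, sub_re, sub_im]
    have k7 : ip f (p3 - p0) = Real.cos θ * (p3.re - p0.re)
        + Real.sin θ * (p3.im - p0.im) := by
      rw [ip_def]; simp only [hf, sub_re, sub_im]
    rw [hL, k6, k7]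
    have : d + p + p' + c0 * T1 + c1 * p0.im + c2 * T3 + c3 * p2.im + c4 * T5
        = d + p + p' + (c0 * T1 + c1 * p0.im) + (c2 * T3 + c3 * p2.im) + c4 * T5 := by ring
    rw [this, k1, k2, k3]
    linear_combination k4 - k5
  have n1 : 0 ≤ c0 * (T1 + δ) := mul_nonneg hc0.le (by linarith only [t1])
  have n2 : 0 ≤ c1 * (p0.im + δ) := mul_nonneg hc1.le (by linarith only [h0'])
  have n3 : 0 ≤ c2 * (T3 + δ) := mul_nonneg hc2.le (by linarith only [t3])
  have n4 : 0 ≤ c3 * (p2.im + δ) := mul_nonneg hc3.le (by linarith only [h2'])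
  have n5 : 0 ≤ c4 * (T5 + δ) := mul_nonneg hc4.le (by linarith only [t5])
  have tot : (‖p0 - p2‖ - (p2.re - p0.re)) + (‖p2 - p3‖ - ip g (p3 - p2))
      + (‖p3 - p0‖ - ip f (p3 - p0)) + c0 * (T1 + δ) + c1 * (p0.im + δ) + c2 * (T3 + δ)
      + c3 * (p2.im + δ) + c4 * (T5 + δ) < K * δ := by
    rw [hK]; linarith only [key, hF]
  have b1 : c0 * (T1 + δ) ≤ K * δ := by linarith only [tot, s1, s2, s3, n2, n3, n4, n5]
  have b2 : c1 * (p0.im + δ) ≤ K * δ := by linarith only [tot, s1, s2, s3, n1, n3, n4, n5]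
  have b3 : c2 * (T3 + δ) ≤ K * δ := by linarith only [tot, s1, s2, s3, n1, n2, n4, n5]
  have b4 : c3 * (p2.im + δ) ≤ K * δ := by linarith only [tot, s1, s2, s3, n1, n2, n3, n5]
  have b5 : ‖p2 - p3‖ - ip g (p3 - p2) ≤ K * δ := by
    linarith only [tot, s1, s3, n1, n2, n3, n4, n5]
  have b6 : ‖p3 - p0‖ - ip f (p3 - p0) ≤ K * δ := by
    linarith only [tot, s1, s2, n1, n2, n3, n4, n5]
  have div1 : ∀ c T : ℝ, 0 < c → -δ ≤ T → c * (T + δ) ≤ K * δ → |T| ≤ (1 + K / c) * δ := by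
    intro c T hc ht hb
    have e : T + δ ≤ K / c * δ := by
      have : K / c * δ = (K * δ) / c := by ring
      rw [this, le_div_iff₀ hc]; linarith only [hb]
    have e' : 0 ≤ K / c * δ := by positivity
    rw [abs_le]
    constructor
    · linarith only [ht, e']
    · linarith only [e, hδ]
  have q1 : |p0.re| + |p0.im| ≤ A0 * δ := by
    rw [hA0d]
    apply near0 (Real.sin α) (Real.cos α) K0 δ p0.re p0.im T1 hsα
      (Real.cos_sq_le_one α) hT1
    · refine (div1 c0 T1 hc0 t1 b1).trans ?_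
      apply mul_le_mul_of_nonneg_right _ hδ.le
      have : 0 ≤ K / c1 := by positivity
      rw [hK0d]; linarith only [this]
    · refine (div1 c1 p0.im hc1 h0' b2).trans ?_
      apply mul_le_mul_of_nonneg_right _ hδ.le
      have : 0 ≤ K / c0 := by positivity
      rw [hK0d]; linarith only [this]
  have q2 : |p2.re - d| + |p2.im| ≤ A2 * δ := by
    have h := near0 (Real.sin α') (Real.cos α') K2 δ (-(p2.re - d)) p2.im T3 hsα'
      (Real.cos_sq_le_one α') (by rw [hT3]; ring)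
      (by
        refine (div1 c2 T3 hc2 t3 b3).trans ?_
        apply mul_le_mul_of_nonneg_right _ hδ.le
        have : 0 ≤ K / c3 := by positivity
        rw [hK2d]; linarith only [this])
      (by
        refine (div1 c3 p2.im hc3 h2' b4).trans ?_
        apply mul_le_mul_of_nonneg_right _ hδ.le
        have : 0 ≤ K / c2 := by positivity
        rw [hK2d]; linarith only [this])
    rwa [abs_neg, ← hA2d] at h
  have r0 : ‖p0‖ ≤ A0 * δ := (Complex.norm_le_abs_re_add_abs_im p0).trans q1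
  have r2 : ‖p2 - d‖ ≤ A2 * δ := by
    refine (Complex.norm_le_abs_re_add_abs_im (p2 - d)).trans ?_
    simpa using q2
  have f0 : ‖p0‖ < ρ := lt_of_le_of_lt r0 (hs1 δ hδ hd2)
  have f2 : ‖p2 - d‖ < ρ := lt_of_le_of_lt r2 (hs2 δ hδ hd3)
  refine ⟨f0, f2, ?_⟩
  -- the third vertex
  have m1 : ‖p3‖ - ip f p3 ≤ (K + 2 * A0) * δ := by
    have e1 : ‖p3‖ ≤ ‖p3 - p0‖ + ‖p0‖ := by
      calc ‖p3‖ = ‖(p3 - p0) + p0‖ := by congr 1; ring
        _ ≤ _ := norm_add_le _ _
    have e2 : ip f (p3 - p0) = ip f p3 - ip f p0 := by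
      simp only [ip_def, sub_re, sub_im]; ring
    have e3 : -ip f p0 ≤ ‖p0‖ := by
      have h := ip_le_norm f (-p0) nf
      rw [norm_neg] at h
      have : ip f (-p0) = - ip f p0 := by simp only [ip_def, neg_re, neg_im]; ring
      linarith only [h, this]
    have e4 : (K + 2 * A0) * δ = K * δ + 2 * (A0 * δ) := by ring
    linarith only [e1, e2, e3, e4, b6, r0]
  have m2 : ‖p3 - d‖ - ip g (p3 - d) ≤ (K + 2 * A2) * δ := by
    have e1 : ‖p3 - d‖ ≤ ‖p2 - p3‖ + ‖p2 - d‖ := by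
      calc ‖p3 - d‖ = ‖-(p2 - p3) + (p2 - d)‖ := by congr 1; ring
        _ ≤ _ := by
          refine (norm_add_le _ _).trans ?_
          rw [norm_neg]
    have e2 : ip g (p3 - p2) = ip g (p3 - d) - ip g (p2 - d) := by
      simp only [ip_def, sub_re, sub_im, ofReal_re, ofReal_im]; ring
    have e3 : -ip g (p2 - d) ≤ ‖p2 - d‖ := by
      have h := ip_le_norm g (-(p2 - d)) ng
      rw [norm_neg] at h
      have : ip g (-(p2 - d)) = - ip g (p2 - d) := by simp only [ip_def, neg_re, neg_im]; ring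
      linarith only [h, this]
    have e4 : (K + 2 * A2) * δ = K * δ + 2 * (A2 * δ) := by ring
    linarith only [e1, e2, e3, e4, b5, r2]
  have m3 : ‖p3‖ ≤ B := by
    have e1 : ‖p3‖ ≤ ‖p3 - p0‖ + ‖p0‖ := by
      calc ‖p3‖ = ‖(p3 - p0) + p0‖ := by congr 1; ring
        _ ≤ _ := norm_add_le _ _
    have e2 : A0 * δ ≤ A0 := mul_le_of_le_one_right hA0.le hd1
    have e3 : 0 ≤ ‖p0 - p2‖ := norm_nonneg _
    have e4 : 0 ≤ ‖p2 - p3‖ := norm_nonneg _
    have := H.dpos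
    rw [hBd]; linarith only [e1, e2, e3, e4, this, hF, r0, hd1, hA2]
  have m4 : ‖p3 - d‖ ≤ B := by
    have e1 : ‖p3 - d‖ ≤ ‖p2 - p3‖ + ‖p2 - d‖ := by
      calc ‖p3 - d‖ = ‖-(p2 - p3) + (p2 - d)‖ := by congr 1; ring
        _ ≤ _ := by
          refine (norm_add_le _ _).trans ?_
          rw [norm_neg]
    have e2 : A2 * δ ≤ A2 := mul_le_of_le_one_right hA2.le hd1
    have e3 : 0 ≤ ‖p0 - p2‖ := norm_nonneg _
    have e4 : 0 ≤ ‖p3 - p0‖ := norm_nonneg _
    have := H.dpos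
    rw [hBd]; linarith only [e1, e2, e3, e4, this, hF, r2, hd1, hA0]
  have perp : ∀ (e w : ℂ) (ε : ℝ), e.re ^ 2 + e.im ^ 2 = 1 → ‖w‖ - ip e w ≤ ε → ‖w‖ ≤ B →
      (e.re * w.im - e.im * w.re) ^ 2 ≤ 2 * (ε * B) := by
    intro e w ε he h1 h2
    have h3 := ip_le_norm e w he
    have h4 := ip_le_norm (-e) w (by simpa using he)
    have h5 : ip (-e) w = - ip e w := by simp only [ip_def, neg_re, neg_im]; ring
    have h6 : ‖w‖ ^ 2 = w.re ^ 2 + w.im ^ 2 := by
      rw [Complex.sq_norm, Complex.normSq_apply]; ring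
    have h7 : (e.re * w.im - e.im * w.re) ^ 2 = ‖w‖ ^ 2 - (ip e w) ^ 2 := by
      rw [h6, ip_def]
      have : w.re ^ 2 + w.im ^ 2 = (e.re ^ 2 + e.im ^ 2) * (w.re ^ 2 + w.im ^ 2) := by
        rw [he, one_mul]
      rw [this]; ring
    have h8 : ‖w‖ ^ 2 - (ip e w) ^ 2 = (‖w‖ - ip e w) * (‖w‖ + ip e w) := by ring
    rw [h7, h8]
    have h9 : 0 ≤ ‖w‖ - ip e w := by linarith only [h3]
    have h10 : 0 ≤ ‖w‖ + ip e w := by linarith only [h4, h5]
    have h11 : ‖w‖ + ip e w ≤ 2 * B := by linarith only [h3, h2]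
    calc (‖w‖ - ip e w) * (‖w‖ + ip e w) ≤ (‖w‖ - ip e w) * (2 * B) :=
          mul_le_mul_of_nonneg_left h11 h9
      _ ≤ ε * (2 * B) := mul_le_mul_of_nonneg_right h1 (by positivity)
      _ = 2 * (ε * B) := by ring
  have v1 := perp f p3 _ nf m1 m3
  have v2 := perp g (p3 - d) _ ng m2 m4
  set x : ℝ := p3.re - a.re with hx
  set y : ℝ := p3.im - a.im with hy
  have w1 : f.re * p3.im - f.im * p3.re = Real.cos θ * y - Real.sin θ * x := by
    simp only [hf, hx, hy, ar, ai]; ring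
  have w2 : g.re * (p3 - d).im - g.im * (p3 - d).re = -(Real.cos θ' * y) - Real.sin θ' * x := by
    simp only [hg, hx, hy, ar', ai', sub_re, sub_im, ofReal_re, ofReal_im]; ring
  rw [w1] at v1
  rw [w2] at v2
  set Y : ℝ := Real.cos θ * y - Real.sin θ * x with hY
  set Y' : ℝ := -(Real.cos θ' * y) - Real.sin θ' * x with hY'
  have z1 : Real.sin (θ + θ') * x = -(Real.cos θ' * Y + Real.cos θ * Y') := by
    rw [Real.sin_add, hY, hY']; ring
  have z2 : Real.sin (θ + θ') * y = Real.sin θ' * Y - Real.sin θ * Y' := by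
    rw [Real.sin_add, hY, hY']; ring
  have z3 : Real.sin (θ + θ') ^ 2 * (x ^ 2 + y ^ 2) ≤ 2 * (2 * (Y ^ 2 + Y' ^ 2)) := by
    have i1 : (Real.cos θ' * Y + Real.cos θ * Y') ^ 2
        ≤ 2 * (Y ^ 2 + Y' ^ 2) := by
      have j1 : Real.cos θ' ^ 2 ≤ 1 := Real.cos_sq_le_one θ'
      have j2 : Real.cos θ ^ 2 ≤ 1 := Real.cos_sq_le_one θ
      have j3 : Real.cos θ' ^ 2 * Y ^ 2 ≤ Y ^ 2 := mul_le_of_le_one_left (sq_nonneg Y) j1
      have j4 : Real.cos θ ^ 2 * Y' ^ 2 ≤ Y' ^ 2 := mul_le_of_le_one_left (sq_nonneg Y') j2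
      linarith only [sq_nonneg (Real.cos θ' * Y - Real.cos θ * Y'), j3, j4]
    have i2 : (Real.sin θ' * Y - Real.sin θ * Y') ^ 2
        ≤ 2 * (Y ^ 2 + Y' ^ 2) := by
      have j1 : Real.sin θ' ^ 2 ≤ 1 := Real.sin_sq_le_one θ'
      have j2 : Real.sin θ ^ 2 ≤ 1 := Real.sin_sq_le_one θ
      have j3 : Real.sin θ' ^ 2 * Y ^ 2 ≤ Y ^ 2 := mul_le_of_le_one_left (sq_nonneg Y) j1
      have j4 : Real.sin θ ^ 2 * Y' ^ 2 ≤ Y' ^ 2 := mul_le_of_le_one_left (sq_nonneg Y') j2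
      linarith only [sq_nonneg (Real.sin θ' * Y + Real.sin θ * Y'), j3, j4]
    calc Real.sin (θ + θ') ^ 2 * (x ^ 2 + y ^ 2)
        = (Real.sin (θ + θ') * x) ^ 2 + (Real.sin (θ + θ') * y) ^ 2 := by ring
      _ = (Real.cos θ' * Y + Real.cos θ * Y') ^ 2 + (Real.sin θ' * Y - Real.sin θ * Y') ^ 2 := by
          rw [z1, z2]; ring
      _ ≤ _ := by linarith only [i1, i2]
  have z4 : x ^ 2 + y ^ 2 ≤ Q * δ := by
    have : Q * δ = (2 * (2 * (2 * (((K + 2 * A0) * δ) * B + ((K + 2 * A2) * δ) * B))))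
        / Real.sin (θ + θ') ^ 2 := by rw [hQd]; ring
    rw [this, le_div_iff₀ (by positivity)]
    linarith only [z3, v1, v2]
  have z5 : ‖p3 - a‖ ^ 2 < ρ ^ 2 := by
    have : ‖p3 - a‖ ^ 2 = x ^ 2 + y ^ 2 := by
      rw [Complex.sq_norm, Complex.normSq_apply]; simp only [sub_re, sub_im, hx, hy]; ring
    rw [this]
    exact lt_of_le_of_lt z4 (hs3 δ hδ hd4)
  exact lt_of_pow_lt_pow_left₀ 2 hρ.le z5

end Pool.Agent.XQ.K4.H2
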