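import Pool.Agent.Helper36_XQ.Stmt4

/-!
Squad XQ (MP_5b0138_an), part A4, module A4_UP4 (helper2): all nearly minimal loops of G4 are good.
-/

set_option autoImplicit false

namespace Pool.Agent.XQ.K4.H2

open Complex Pool.Agent.H62T

/-- thin ellipse in normalised coordinates -/
theorem ellip (D ρ : ℝ) (hD : 0 < D) (hρ : 0 < ρ) : ∃ ε : ℝ, 0 < ε ∧ ∀ w : ℂ,
    ‖w‖ + ‖w - D‖ ≤ D + ε → |w.im| < ρ := by
  refine ⟨min D (ρ ^ 2 / D), by positivity, fun w hw => ?_⟩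
  generalize hε : min D (ρ ^ 2 / D) = ε at hw
  have e1 : ε ≤ D := by rw [← hε]; exact min_le_left _ _
  have e2 : ε ≤ ρ ^ 2 / D := by rw [← hε]; exact min_le_right _ _
  have e0 : 0 < ε := by rw [← hε]; positivity
  rw [le_div_iff₀ hD] at e2
  have h1 : ‖((D : ℂ) + ((2 * w.im : ℝ) : ℂ) * I)‖ ≤ ‖w‖ + ‖w - D‖ := by
    have h2 : ‖w - D‖ = ‖-(starRingEnd ℂ) (w - D)‖ := by
      rw [norm_neg, Complex.norm_conj]
    have h3 : (D : ℂ) + ((2 * w.im : ℝ) : ℂ) * I = w + -(starRingEnd ℂ) (w - D) := by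
      apply Complex.ext <;> simp
      ring
    rw [h2, h3]
    exact norm_add_le _ _
  have h4 : ‖((D : ℂ) + ((2 * w.im : ℝ) : ℂ) * I)‖ ^ 2 = D ^ 2 + (2 * w.im) ^ 2 := by
    rw [Complex.sq_norm, Complex.normSq_apply]
    simp
    ring
  have h5 : D ^ 2 + (2 * w.im) ^ 2 ≤ (D + ε) ^ 2 := by
    rw [← h4]
    exact pow_le_pow_left₀ (norm_nonneg _) (h1.trans hw) 2
  have h6 : ε ^ 2 ≤ D * ε := by nlinarith only [e1, e0]
  apply abs_lt_of_sq_lt_sq _ hρ.le
  nlinarith only [e2, h5, h6, e0]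

theorem ivt (D δ : ℝ) (c : ℕ → ℝ) (p q : ℕ) (hpq : p ≤ q) (h1 : c p ≤ 9 / 20 * D)
    (h2 : 11 / 20 * D ≤ c q) (hs : ∀ i, |c (i + 1) - c i| < δ) (hδ : δ ≤ D / 10) (hD : 0 < D) :
    ∃ i, p < i ∧ i < q ∧ 9 / 20 * D < c i ∧ c i < 11 / 20 * D := by
  classical
  have hex : ∃ i, p ≤ i ∧ 9 / 20 * D < c i := ⟨q, hpq, by linarith only [h2, hD]⟩
  set i := Nat.find hex with hi
  have hi1 : p ≤ i ∧ 9 / 20 * D < c i := Nat.find_spec hex
  have hne : i ≠ p := by
    intro h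
    rw [h] at hi1
    linarith only [h1, hi1.2]
  have hlt : p < i := lt_of_le_of_ne hi1.1 (Ne.symm hne)
  obtain ⟨k, hk⟩ : ∃ k, i = k + 1 := ⟨i - 1, by omega⟩
  have hk2 : ¬ (p ≤ k ∧ 9 / 20 * D < c k) := by
    apply Nat.find_min hex
    rw [← hi]; omega
  have hk3 : c k ≤ 9 / 20 * D := by
    by_contra hcon
    push Not at hcon
    exact hk2 ⟨by omega, hcon⟩
  have hk4 := hs k
  rw [← hk, abs_lt] at hk4
  have hlt2 : c i < 11 / 20 * D := by linarith only [hδ, hk3, hk4.2]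
  refine ⟨i, hlt, ?_, hi1.2, hlt2⟩
  have hle : i ≤ q := by
    apply Nat.find_min' hex
    exact ⟨hpq, by linarith only [h2, hδ, hk4]⟩
  refine lt_of_le_of_ne hle ?_
  intro h
  rw [h] at hlt2
  linarith only [h2, hlt2]

/-- a leg of the polygon meets the window in its middle -/
theorem leg (T : ℂ → ℂ) (P Q : ℂ) (D ρ : ℝ) (hT : ∀ z z', ‖T z - T z'‖ = ‖z - z'‖)
    (hP : T P = 0) (hQ : T Q = D) (hD : 0 < D) (hρ : 0 < ρ) :
    ∃ r0 : ℝ, 0 < r0 ∧ ∀ (r : ℝ) (y : ℕ → ℂ) (p q : ℕ), r ≤ r0 → p ≤ q →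
      (∀ i, ‖y i - y (i + 1)‖ < r) →
      ((‖y p - P‖ < r ∧ ‖y q - Q‖ < r) ∨ (‖y p - Q‖ < r ∧ ‖y q - P‖ < r)) →
      (∀ i, p < i → i < q → ‖y i - P‖ + ‖y i - Q‖ ≤ ‖P - Q‖ + 7 * r) →
      ∃ i, p < i ∧ i < q ∧ T (y i) ∈ Rct (9 / 20 * D) (11 / 20 * D) ρ := by
  obtain ⟨ε, hε, he⟩ := ellip D ρ hD hρ
  have hPQ : ‖P - Q‖ = D := by
    rw [← hT, hP, hQ, zero_sub, norm_neg, Complex.norm_real, Real.norm_of_nonneg hD.le]
  refine ⟨min (D / 10) (ε / 7), by positivity, ?_⟩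
  intro r y p q hr hpq hs hends hthin
  have r1 : r ≤ D / 10 := hr.trans (min_le_left _ _)
  have r2 : r ≤ ε / 7 := hr.trans (min_le_right _ _)
  have hst : ∀ i, |(T (y (i + 1))).re - (T (y i)).re| < r := by
    intro i
    have h1 := abs_re_le_norm (T (y (i + 1)) - T (y i))
    rw [hT, norm_sub_rev, sub_re] at h1
    exact lt_of_le_of_lt h1 (hs i)
  have nearP : ∀ z, ‖z - P‖ < r → (T z).re < r := by
    intro z hz
    rw [← hT, hP, sub_zero] at hz
    exact lt_of_le_of_lt (re_le_norm _) hz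
  have nearQ : ∀ z, ‖z - Q‖ < r → D - r < (T z).re := by
    intro z hz
    rw [← hT, hQ] at hz
    have h1 := abs_re_le_norm (T z - D)
    rw [sub_re, ofReal_re] at h1
    have := neg_abs_le ((T z).re - D)
    linarith only [hz, h1, this]
  have fin : ∀ i, p < i → i < q → |(T (y i)).im| < ρ := by
    intro i h1 h2
    apply he
    have h3 := hthin i h1 h2
    rw [hPQ] at h3
    have h4 : ‖T (y i)‖ = ‖y i - P‖ := by rw [← hT, hP, sub_zero]
    have h5 : ‖T (y i) - D‖ = ‖y i - Q‖ := by rw [← hQ, hT]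
    rw [h4, h5]; linarith only [r2, h3]
  rcases hends with ⟨h1, h2⟩ | ⟨h1, h2⟩
  · obtain ⟨i, i1, i2, i3, i4⟩ := ivt D r (fun i => (T (y i)).re) p q hpq
      (by have := nearP _ h1; linarith) (by have := nearQ _ h2; linarith)
      hst r1 hD
    exact ⟨i, i1, i2, i3, i4, fin i i1 i2⟩
  · obtain ⟨i, i1, i2, i3, i4⟩ := ivt D r (fun i => D - (T (y i)).re) p q hpq
      (by have := nearQ _ h1; linarith only [hD, r1, this]) (by have := nearP _ h2; linarith)
      (by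
        intro i
        have := hst i
        rw [← abs_neg]
        convert this using 2
        ring) r1 hD
    exact ⟨i, i1, i2, by linarith only [i4], by linarith only [i3], fin i i1 i2⟩

theorem thin (P Q R yp yq yr yi : ℂ) (r l : ℝ)
    (h : ‖yp - yi‖ + ‖yi - yq‖ + ‖yq - yr‖ + ‖yr - yp‖ < l)
    (hl : l ≤ ‖P - Q‖ + ‖Q - R‖ + ‖R - P‖ + r) (h1 : ‖yp - P‖ < r) (h2 : ‖yq - Q‖ < r)
    (h3 : ‖yr - R‖ < r) : ‖yi - P‖ + ‖yi - Q‖ ≤ ‖P - Q‖ + 7 * r := by
  have a1 : ‖yi - P‖ ≤ ‖yp - yi‖ + ‖yp - P‖ := by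
    calc ‖yi - P‖ = ‖-(yp - yi) + (yp - P)‖ := by congr 1; ring
      _ ≤ _ := by
        refine (norm_add_le _ _).trans ?_
        rw [norm_neg]
  have a2 : ‖yi - Q‖ ≤ ‖yi - yq‖ + ‖yq - Q‖ := by
    calc ‖yi - Q‖ = ‖(yi - yq) + (yq - Q)‖ := by congr 1; ring
      _ ≤ _ := norm_add_le _ _
  have a3 : ‖Q - R‖ ≤ ‖yq - Q‖ + ‖yq - yr‖ + ‖yr - R‖ := by
    calc ‖Q - R‖ = ‖-(yq - Q) + (yq - yr) + (yr - R)‖ := by congr 1; ring
      _ ≤ ‖-(yq - Q)‖ + ‖yq - yr‖ + ‖yr - R‖ := norm_add₃_le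
      _ = _ := by rw [norm_neg]
  have a4 : ‖R - P‖ ≤ ‖yr - R‖ + ‖yr - yp‖ + ‖yp - P‖ := by
    calc ‖R - P‖ = ‖-(yr - R) + (yr - yp) + (yp - P)‖ := by congr 1; ring
      _ ≤ ‖-(yr - R)‖ + ‖yr - yp‖ + ‖yp - P‖ := norm_add₃_le
      _ = _ := by rw [norm_neg]
  linarith

theorem ofNat_add' {n : ℕ} [NeZero n] (a b : ℕ) :
    Fin.ofNat n (a + b) = Fin.ofNat n a + Fin.ofNat n b := by
  ext
  simp [Fin.val_add]

theorem ofNat_n {n : ℕ} [NeZero n] : Fin.ofNat n n = 0 := by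
  ext
  simp

theorem ofNat_val {n : ℕ} [NeZero n] (v : Fin n) : Fin.ofNat n v.val = v := by
  ext
  simp

theorem up4 (hpol : PolStatement) (hnr : Nr4Statement) : Up4Statement := by
  obtain ⟨pol1, pol2, -, pol4, pol5⟩ := hpol
  intro α α' θ θ' d a ρ H hρ
  obtain ⟨p, hp, hap⟩ := H.ea
  obtain ⟨p', hp', hap'⟩ := H.ea'
  have hd := H.dpos
  have na : ‖a‖ = p := by
    rw [hap, norm_mul, Complex.norm_exp_ofReal_mul_I, mul_one, Complex.norm_real,
      Real.norm_of_nonneg hp.le]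
  have hneg : exp (-((θ' : ℂ) * I)) = exp (((-θ' : ℝ) : ℂ) * I) := by
    congr 1; push_cast; ring
  have nad : ‖a - d‖ = p' := by
    have : a - d = -((p' : ℂ) * exp (((-θ' : ℝ) : ℂ) * I)) := by rw [hap', hneg]; ring
    rw [this, norm_neg, norm_mul, Complex.norm_exp_ofReal_mul_I, mul_one, Complex.norm_real,
      Real.norm_of_nonneg hp'.le]
  -- the three isometries
  obtain ⟨ra, hra, lega⟩ := leg (fun z => z) 0 d d ρ (fun z z' => rfl) rfl rfl hd hρ
  obtain ⟨rb, hrb, legb⟩ := leg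
    (fun z => exp (-((θ' : ℂ) * I)) * (starRingEnd ℂ) (d - z)) d a ‖a - d‖ ρ
    (by
      intro z z'
      have : exp (-((θ' : ℂ) * I)) * (starRingEnd ℂ) (d - z)
          - exp (-((θ' : ℂ) * I)) * (starRingEnd ℂ) (d - z')
          = exp (-((θ' : ℂ) * I)) * (starRingEnd ℂ) (-(z - z')) := by
        simp only [map_sub, map_neg]; ring
      rw [this, norm_mul, Complex.norm_conj, norm_neg, hneg, Complex.norm_exp_ofReal_mul_I,
        one_mul])
    (by simp)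
    (by
      have e1 : (d : ℂ) - a = (p' : ℂ) * exp (((-θ' : ℝ) : ℂ) * I) := by
        rw [hap', hneg]; ring
      have e2 : (starRingEnd ℂ) (exp (((-θ' : ℝ) : ℂ) * I)) = exp ((θ' : ℂ) * I) := by
        rw [← Complex.exp_conj]; congr 1; simp
      rw [e1, map_mul, e2, Complex.conj_ofReal, nad, mul_left_comm, ← Complex.exp_add]
      simp)
    (by rw [nad]; exact hp') hρ
  obtain ⟨rc, hrc, legc⟩ := leg
    (fun z => exp (-((θ : ℂ) * I)) * z) 0 a ‖a‖ ρ
    (by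
      intro z z'
      have : exp (-((θ : ℂ) * I)) = exp (((-θ : ℝ) : ℂ) * I) := by
        congr 1; push_cast; ring
      rw [← mul_sub, norm_mul, this, Complex.norm_exp_ofReal_mul_I, one_mul])
    (by simp)
    (by
      rw [na, hap, mul_left_comm, ← Complex.exp_add]
      simp)
    (by rw [na]; exact hp) hρ
  -- constants
  set r : ℝ := min (min ra (min rb rc)) (min (d / 4) (min (p / 4) (p' / 4))) with hr
  have hr0 : 0 < r := by rw [hr]; positivity
  have r1 : r ≤ ra := (min_le_left _ _).trans (min_le_left _ _)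
  have r2 : r ≤ rb := (min_le_left _ _).trans ((min_le_right _ _).trans (min_le_left _ _))
  have r3 : r ≤ rc := (min_le_left _ _).trans ((min_le_right _ _).trans (min_le_right _ _))
  have r4 : r ≤ d / 4 := (min_le_right _ _).trans (min_le_left _ _)
  have r5 : r ≤ p / 4 := (min_le_right _ _).trans ((min_le_right _ _).trans (min_le_left _ _))
  have r6 : r ≤ p' / 4 := (min_le_right _ _).trans ((min_le_right _ _).trans (min_le_right _ _))
  clear_value r
  obtain ⟨δ1, hδ1, nr⟩ := hnr α α' θ θ' d a r H hr0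
  refine ⟨min r δ1, L4 d a + min r δ1, by positivity, by
    have : 0 < min r δ1 := by positivity
    linarith only [this], ?_⟩
  generalize hδd : min r δ1 = δ
  have hδr : δ ≤ r := by rw [← hδd]; exact min_le_left _ _
  have hδ1' : δ ≤ δ1 := by rw [← hδd]; exact min_le_right _ _
  intro n hn x A hvis hcns hsho hln
  have hu : ∀ s, ‖u4 α α' θ θ' s‖ = 1 := by
    intro s
    fin_cases s
    · show ‖I * exp (α * I)‖ = 1
      rw [norm_mul, Complex.norm_exp_ofReal_mul_I, Complex.norm_I, one_mul]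
    · show ‖-(I * exp (-((0 : ℝ) * I)))‖ = 1
      simp
    · show ‖exp ((Real.pi / 2 - α' : ℝ) * I)‖ = 1
      rw [Complex.norm_exp_ofReal_mul_I]
    · show ‖exp ((Real.pi / 2 + (θ - θ') / 2 : ℝ) * I)‖ = 1
      rw [Complex.norm_exp_ofReal_mul_I]
  obtain ⟨v1, v2⟩ := hvis
  have him : ∀ j, 0 < (x j).im := by
    intro j
    have h1 : (1 : Fin 4) ∉ A j := by
      have := v2 j
      rw [Finset.disjoint_singleton_right] at this
      exact this
    have h2 := (hcns j 1 h1).1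
    have h3 : ip (u4 α α' θ θ' 1) (x j) = -(x j).im := by
      have : u4 α α' θ θ' 1 = -(I * exp (-((0 : ℝ) * I))) := rfl
      rw [this]
      simp [Pool.Agent.H62T.ip]
    have h4 : h4 α' θ θ' d a 1 = 0 := rfl
    rw [h3, h4] at h2
    linarith only [h2]
  obtain ⟨q1, q2, q3⟩ := pol5 (u4 α α' θ θ') (h4 α' θ θ' d a) n x A hu
  obtain ⟨q4, q5⟩ := q3 δ hsho
  obtain ⟨j0, hj0⟩ := v1 0 (by simp)
  obtain ⟨j2, hj2⟩ := v1 2 (by simp)
  obtain ⟨j3, hj3⟩ := v1 3 (by simp)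
  have hPl : Pl x < L4 d a + δ := lt_of_le_of_lt q1 hln
  obtain ⟨c0, c2, c3⟩ := nr (x j0) (x j2) (x j3)
    (by have := pol2 n x j0 j2 j3; linarith)
    (by have := q5 j0 0 hj0; linarith)
    (by have := him j0; linarith)
    (by have := q5 j2 2 hj2; linarith)
    (by have := him j2; linarith)
    (by have := q5 j3 3 hj3; linarith)
  -- rotated sequences
  set Y : ℕ → ℂ := fun k => x (Fin.ofNat n k + j0) with hY
  set B : ℕ → Finset (Fin 4) := fun k => A (Fin.ofNat n k + j0) with hB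
  have Yper : ∀ k, Y (k + n) = Y k := by
    intro k
    simp only [hY]
    rw [ofNat_add', ofNat_n, add_zero]
  have Bper : ∀ k, B (k + n) = B k := by
    intro k
    simp only [hB]
    rw [ofNat_add', ofNat_n, add_zero]
  have Ystep : ∀ k, ‖Y k - Y (k + 1)‖ < r := by
    intro k
    have h1 := q4 (Fin.ofNat n k + j0)
    have h2 : Fin.ofNat n k + j0 + 1 = Fin.ofNat n (k + 1) + j0 := by
      rw [ofNat_add']
      have : Fin.ofNat n 1 = 1 := rfl
      rw [this, add_right_comm]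
    rw [h2] at h1
    exact lt_of_lt_of_le h1 hδr
  have Y0 : Y 0 = x j0 := by
    simp only [hY]
    have : Fin.ofNat n 0 = 0 := rfl
    rw [this, zero_add]
  have B0 : B 0 = A j0 := by
    simp only [hB]
    have : Fin.ofNat n 0 = 0 := rfl
    rw [this, zero_add]
  have Yv : ∀ j : Fin n, Y (j - j0).val = x j := by
    intro j
    simp only [hY]
    rw [ofNat_val, sub_add_cancel]
  have Bv : ∀ j : Fin n, B (j - j0).val = A j := by
    intro j
    simp only [hB]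
    rw [ofNat_val, sub_add_cancel]
  set k2 := (j2 - j0).val with hk2
  set k3 := (j3 - j0).val with hk3
  have k2n : k2 < n := (j2 - j0).isLt
  have k3n : k3 < n := (j3 - j0).isLt
  have Y2 : Y k2 = x j2 := Yv j2
  have Y3 : Y k3 = x j3 := Yv j3
  have B2 : B k2 = A j2 := Bv j2
  have B3 : B k3 = A j3 := Bv j3
  clear_value k2 k3
  rw [← Y0] at c0
  rw [← Y2] at c2
  rw [← Y3] at c3
  have far : ∀ (z P Q : ℂ), ‖z - P‖ < r → ‖z - Q‖ < r → ‖P - Q‖ < 2 * r := by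
    intro z P Q h1 h2
    calc ‖P - Q‖ = ‖-(z - P) + (z - Q)‖ := by congr 1; ring
      _ ≤ ‖-(z - P)‖ + ‖z - Q‖ := norm_add_le _ _
      _ < 2 * r := by rw [norm_neg]; linarith only [h1, h2]
  have nd : ‖(0 : ℂ) - d‖ = d := by
    rw [zero_sub, norm_neg, Complex.norm_real, Real.norm_of_nonneg hd.le]
  have c0' : ‖Y 0 - 0‖ < r := by rwa [sub_zero]
  have k20 : k2 ≠ 0 := by
    intro h
    rw [h] at c2
    have := far _ _ _ c0' c2
    rw [nd] at this
    linarith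
  have k30 : k3 ≠ 0 := by
    intro h
    rw [h] at c3
    have := far _ _ _ c0' c3
    rw [zero_sub, norm_neg, na] at this
    linarith
  have k23 : k2 ≠ k3 := by
    intro h
    rw [← h] at c3
    have := far _ _ _ c3 c2
    rw [nad] at this
    linarith
  have quad : ∀ i1 i2 i3 : ℕ, 0 < i1 → i1 < i2 → i2 < i3 → i3 < n →
      ‖Y 0 - Y i1‖ + ‖Y i1 - Y i2‖ + ‖Y i2 - Y i3‖ + ‖Y i3 - Y 0‖ < L4 d a + δ := by
    intro i1 i2 i3 h1 h2 h3 h4
    have hm : StrictMono (![0, i1, i2, i3] : Fin 4 → ℕ) := by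
      rw [Fin.strictMono_iff_lt_succ]
      intro i
      fin_cases i
      · simpa using h1
      · simpa using h2
      · simpa using h3
    have h5 := pol1 n (rot j0 x) 3 ![0, i1, i2, i3] hm (by simpa [Fin.last] using h4)
    rw [pol4] at h5
    refine lt_of_le_of_lt ?_ hPl
    rw [Fin.sum_univ_three] at h5
    exact h5
  have hL : L4 d a = ‖(0 : ℂ) - d‖ + ‖(d : ℂ) - a‖ + ‖a - 0‖ := by
    unfold L4
    rw [nd, norm_sub_rev (d : ℂ) a, sub_zero]; ring
  have hS0 : ∀ k, (fun z : ℂ => z) (Y k) ∈ Rct (9 / 20 * d) (11 / 20 * d) ρ →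
      Y k ∈ S4 θ θ' d a ρ 0 := by
    intro k hk
    show Y k ∈ RcU (9 / 20 * d) (11 / 20 * d) ρ
    exact ⟨hk.1, hk.2.1, him _, (abs_lt.mp hk.2.2).2⟩
  have hS1 : ∀ k, (fun z => exp (-((θ' : ℂ) * I)) * (starRingEnd ℂ) (d - z)) (Y k)
      ∈ Rct (9 / 20 * ‖a - d‖) (11 / 20 * ‖a - d‖) ρ → Y k ∈ S4 θ θ' d a ρ 1 := by
    intro k hk
    show Y k ∈ (fun x : ℂ => (d : ℂ) - (starRingEnd ℂ) (exp (θ' * I) * x)) ''
      Rct (9 / 20 * ‖a - d‖) (11 / 20 * ‖a - d‖) ρ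
    refine ⟨_, hk, ?_⟩
    simp only
    rw [← mul_assoc, ← Complex.exp_add]
    simp
  have hS2 : ∀ k, (fun z => exp (-((θ : ℂ) * I)) * z) (Y k)
      ∈ Rct (9 / 20 * ‖a‖) (11 / 20 * ‖a‖) ρ → Y k ∈ S4 θ θ' d a ρ 2 := by
    intro k hk
    show Y k ∈ (fun x : ℂ => exp (θ * I) * x) '' Rct (9 / 20 * ‖a‖) (11 / 20 * ‖a‖) ρ
    refine ⟨_, hk, ?_⟩
    simp only
    rw [← mul_assoc, ← Complex.exp_add]
    simp
  have rotY : ∀ s t : ℕ, rot (Fin.ofNat n s + j0) x (Fin.ofNat n t) = Y (t + s) := by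
    intro s t
    simp only [rot, hY]
    rw [ofNat_add', add_assoc]
  have rotB : ∀ s t : ℕ, rot (Fin.ofNat n s + j0) A (Fin.ofNat n t) = B (t + s) := by
    intro s t
    simp only [rot, hB]
    rw [ofNat_add', add_assoc]
  have rotY0 : ∀ s : ℕ, rot (Fin.ofNat n s + j0) x 0 = Y s := by
    intro s
    have := rotY s 0
    rw [zero_add] at this
    exact this
  have hdis : ∀ (s l : ℕ) (i : Fin 3),
      Disjoint (rot (Fin.ofNat n s + j0) A (Fin.ofNat n l)) (E4 i) := by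
    intro s l i
    rw [rotB]
    have h1 : Disjoint (B (l + s)) {1} := v2 _
    fin_cases i
    · exact h1
    · exact Finset.disjoint_empty_right _
    · exact h1
  clear_value Y B
  rcases lt_or_gt_of_ne k23 with hlt | hlt
  · -- forward
    have tA : ∀ i, 0 < i → i < k2 → ‖Y i - 0‖ + ‖Y i - d‖ ≤ ‖(0 : ℂ) - d‖ + 7 * r := by
      intro i h1 h2
      exact thin 0 d a (Y 0) (Y k2) (Y k3) (Y i) r (L4 d a + δ)
        (quad i k2 k3 h1 h2 hlt k3n) (by rw [hL]; linarith only [hδr]) c0' c2 c3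
    have tB : ∀ i, k2 < i → i < k3 → ‖Y i - d‖ + ‖Y i - a‖ ≤ ‖(d : ℂ) - a‖ + 7 * r := by
      intro i h1 h2
      exact thin d a 0 (Y k2) (Y k3) (Y 0) (Y i) r (L4 d a + δ)
        (by have := quad k2 i k3 (by omega) h1 h2 k3n; linarith)
        (by rw [hL]; linarith) c2 c3 c0'
    have tC : ∀ i, k3 < i → i < n → ‖Y i - 0‖ + ‖Y i - a‖ ≤ ‖(0 : ℂ) - a‖ + 7 * r := by
      intro i h1 h2
      exact thin 0 a d (Y 0) (Y k3) (Y k2) (Y i) r (L4 d a + δ)
        (by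
          have := quad k2 k3 i (by omega) hlt h1 h2
          rw [norm_sub_rev (Y 0) (Y i), norm_sub_rev (Y i) (Y k3), norm_sub_rev (Y k3) (Y k2),
            norm_sub_rev (Y k2) (Y 0)]
          linarith)
        (by
          rw [hL, norm_sub_rev (0 : ℂ) a, norm_sub_rev a (d : ℂ), norm_sub_rev (d : ℂ) 0]
          linarith) c0' c3 c2
    have Yn : Y n = Y 0 := by have := Yper 0; rwa [zero_add] at this
    have Bn : B n = B 0 := by have := Bper 0; rwa [zero_add] at this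
    obtain ⟨s, s1, s2, s3⟩ := lega r Y 0 k2 r1 (by omega) Ystep (Or.inl ⟨c0', c2⟩) tA
    obtain ⟨i1, t1, t2, t3⟩ := legb r Y k2 k3 r2 hlt.le Ystep (Or.inl ⟨c2, c3⟩) tB
    obtain ⟨i2, w1, w2, w3⟩ := legc r Y k3 n r3 k3n.le Ystep
      (Or.inr ⟨c3, by rw [Yn]; exact c0'⟩) tC
    refine ⟨Fin.ofNat n s + j0, i1 - s, i2 - s, by omega, by omega, by omega, Or.inl ?_⟩
    refine ⟨?_, ?_, ?_, ⟨?_, fun l _ => hdis s l 0⟩, ⟨?_, fun l _ _ => hdis s l 1⟩, ?_,
      fun l _ _ => hdis s l 2⟩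
    · rw [rotY0]; exact hS0 s s3
    · rw [rotY, Nat.sub_add_cancel (by omega)]; exact hS1 i1 t3
    · rw [rotY, Nat.sub_add_cancel (by omega)]; exact hS2 i2 w3
    · intro m hm
      have hm' : m = 2 := by simpa [M4] using hm
      refine ⟨k2 - s, by omega, ?_⟩
      rw [rotB, Nat.sub_add_cancel (by omega), hm', B2]; exact hj2
    · intro m hm
      have hm' : m = 3 := by simpa [M4] using hm
      refine ⟨k3 - s, by omega, by omega, ?_⟩
      rw [rotB, Nat.sub_add_cancel (by omega), hm', B3]; exact hj3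
    · intro m hm
      have hm' : m = 0 := by simpa [M4] using hm
      refine ⟨n - s, by omega, by omega, ?_⟩
      rw [rotB, Nat.sub_add_cancel (by omega), hm', Bn, B0]; exact hj0
  · -- backward
    have tC : ∀ i, 0 < i → i < k3 → ‖Y i - 0‖ + ‖Y i - a‖ ≤ ‖(0 : ℂ) - a‖ + 7 * r := by
      intro i h1 h2
      exact thin 0 a d (Y 0) (Y k3) (Y k2) (Y i) r (L4 d a + δ)
        (quad i k3 k2 h1 h2 hlt k2n)
        (by
          rw [hL, norm_sub_rev (0 : ℂ) a, norm_sub_rev a (d : ℂ), norm_sub_rev (d : ℂ) 0]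
          linarith only [hδr]) c0' c3 c2
    have tB : ∀ i, k3 < i → i < k2 → ‖Y i - d‖ + ‖Y i - a‖ ≤ ‖(d : ℂ) - a‖ + 7 * r := by
      intro i h1 h2
      exact thin d a 0 (Y k2) (Y k3) (Y 0) (Y i) r (L4 d a + δ)
        (by
          have := quad k3 i k2 (by omega) h1 h2 k2n
          rw [norm_sub_rev (Y k2) (Y i), norm_sub_rev (Y i) (Y k3), norm_sub_rev (Y k3) (Y 0),
            norm_sub_rev (Y 0) (Y k2)]
          linarith only [this])
        (by rw [hL]; linarith only [hδr]) c2 c3 c0'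
    have tA : ∀ i, k2 < i → i < n → ‖Y i - 0‖ + ‖Y i - d‖ ≤ ‖(0 : ℂ) - d‖ + 7 * r := by
      intro i h1 h2
      exact thin 0 d a (Y 0) (Y k2) (Y k3) (Y i) r (L4 d a + δ)
        (by
          have := quad k3 k2 i (by omega) hlt h1 h2
          rw [norm_sub_rev (Y 0) (Y i), norm_sub_rev (Y i) (Y k2), norm_sub_rev (Y k2) (Y k3),
            norm_sub_rev (Y k3) (Y 0)]
          linarith only [this])
        (by rw [hL]; linarith) c0' c2 c3
    have Yn : Y n = Y 0 := by have := Yper 0; rwa [zero_add] at this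
    have Bn : B n = B 0 := by have := Bper 0; rwa [zero_add] at this
    obtain ⟨i2, w1, w2, w3⟩ := legc r Y 0 k3 r3 (by omega) Ystep (Or.inl ⟨c0', c3⟩) tC
    obtain ⟨i1, t1, t2, t3⟩ := legb r Y k3 k2 r2 hlt.le Ystep (Or.inr ⟨c3, c2⟩) tB
    obtain ⟨s, s1, s2, s3⟩ := lega r Y k2 n r1 k2n.le Ystep
      (Or.inr ⟨c2, by rw [Yn]; exact c0'⟩) tA
    refine ⟨Fin.ofNat n s + j0, i2 + n - s, i1 + n - s, by omega, by omega, by omega,
      Or.inr ?_⟩
    refine ⟨?_, ?_, ?_, ⟨?_, fun l _ => hdis s l 2⟩, ⟨?_, fun l _ _ => hdis s l 1⟩, ?_,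
      fun l _ _ => hdis s l 0⟩
    · rw [rotY0]; exact hS0 s s3
    · rw [rotY, Nat.sub_add_cancel (by omega), Yper]; exact hS2 i2 w3
    · rw [rotY, Nat.sub_add_cancel (by omega), Yper]; exact hS1 i1 t3
    · intro m hm
      have hm' : m = 0 := by simpa [rv, M4] using hm
      refine ⟨n - s, by omega, ?_⟩
      rw [rotB, Nat.sub_add_cancel (by omega), hm', Bn, B0]; exact hj0
    · intro m hm
      have hm' : m = 3 := by simpa [rv, M4] using hm
      refine ⟨k3 + n - s, by omega, by omega, ?_⟩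
      rw [rotB, Nat.sub_add_cancel (by omega), Bper, hm', B3]; exact hj3
    · intro m hm
      have hm' : m = 2 := by simpa [rv, M4] using hm
      refine ⟨k2 + n - s, by omega, by omega, ?_⟩
      rw [rotB, Nat.sub_add_cancel (by omega), Bper, hm', B2]; exact hj2

end Pool.Agent.XQ.K4.H2
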